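import Mathlib

set_option autoImplicit false

namespace Pool.Agent.Results.MP_51a8c5_co.AllDegrees

open Finset Polynomial

open Classical in
/-- The connected sets: nonempty vertex sets inducing a connected subgraph. -/
noncomputable def connSets {V : Type} [Fintype V] (G : SimpleGraph V) : Finset (Finset V) :=
  univ.filter (fun S : Finset V => (G.induce (S : Set V)).Connected)

/-- The connected set polynomial. -/
noncomputable def connPoly {V : Type} [Fintype V] (G : SimpleGraph V) : ℂ[X] :=
  ∑ S ∈ connSets G, X ^ S.card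

/-- The node reliability polynomial. -/
noncomputable def nrel {V : Type} [Fintype V] (G : SimpleGraph V) : ℂ[X] :=
  ∑ S ∈ connSets G, X ^ S.card * (1 - X) ^ (Fintype.card V - S.card)

def AllReal (p : ℂ[X]) : Prop := ∀ z : ℂ, p.IsRoot z → z.im = 0

theorem nrel_real {V : Type} [Fintype V] (G : SimpleGraph V) (h : AllReal (connPoly G)) :
    AllReal (nrel G) := by
  intro z hz
  by_cases h1 : z = 1
  · simp [h1]
  have h2 : (1 - z) ≠ 0 := sub_ne_zero.2 (Ne.symm h1)
  have key : (nrel G).eval z = (1 - z) ^ Fintype.card V * (connPoly G).eval (z / (1 - z)) := by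
    simp only [nrel, connPoly, eval_finsetSum, mul_sum, eval_mul, eval_pow, eval_X, eval_sub,
      eval_one]
    refine sum_congr rfl (fun S _ => ?_)
    obtain ⟨k, hk⟩ := Nat.exists_eq_add_of_le (card_le_univ S)
    rw [hk, Nat.add_sub_cancel_left, div_pow, pow_add]
    field_simp
  have h3 : (connPoly G).IsRoot (z / (1 - z)) := by
    have := hz.eq_zero
    rw [key] at this
    exact (mul_eq_zero.1 this).resolve_left (pow_ne_zero _ h2)
  have h4 := h _ h3
  set r := z / (1 - z) with hr
  have h5 : z = r * (1 - z) := by rw [hr]; field_simp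
  have h6 := congrArg Complex.im h5
  have h7 := congrArg Complex.re h5
  simp [h4] at h6 h7
  by_contra h8
  have h9 : r.re = -1 := by
    have : z.im * (1 + r.re) = 0 := by linarith
    rcases mul_eq_zero.1 this with h | h
    · exact absurd h h8
    · linarith
  rw [h9] at h7
  linarith

theorem exists_poly (e : ℕ) : ∃ P : ℤ[X], P.natDegree = e + 1 ∧ P.Monic ∧ P.eval 1 = 0 ∧
    (∀ j, 0 ≤ P.coeff (j + 1)) ∧ 1 ≤ P.coeff 1 ∧ ∀ z : ℂ, aeval z P = 0 → z.im = 0 := by
  induction e with
  | zero =>
    refine ⟨X - C 1, natDegree_X_sub_C _, monic_X_sub_C _, by simp, ?_, by simp [coeff_one], ?_⟩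
    · intro j
      rw [coeff_sub, coeff_C_succ, coeff_X]
      split_ifs <;> simp
    · intro z hz
      simp only [map_sub, aeval_X, map_one] at hz
      rw [sub_eq_zero.1 hz]; simp
  | succ e ih =>
    obtain ⟨P, h1, h2, h3, h4, h5, h6⟩ := ih
    set M : ℤ := |P.coeff 0| + 1 with hM
    have hM0 : 0 ≤ M := by positivity
    have hc : ∀ j, (P * (X + C M)).coeff (j + 1) = P.coeff j + P.coeff (j + 1) * M := by
      intro j
      rw [mul_add, coeff_add, coeff_mul_X, coeff_mul_C]
    have h1' : 1 ≤ P.coeff 0 + P.coeff 1 * M := by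
      have := neg_abs_le (P.coeff 0)
      nlinarith
    refine ⟨P * (X + C M), ?_, h2.mul (monic_X_add_C _), by simp [h3], ?_, ?_, ?_⟩
    · rw [h2.natDegree_mul (monic_X_add_C _), natDegree_X_add_C, h1]
    · intro j
      rw [hc]
      rcases j with _ | j
      · simp only [zero_add]; linarith
      · exact add_nonneg (h4 _) (mul_nonneg (h4 _) hM0)
    · have := hc 0
      simp only [zero_add] at this
      linarith
    · intro z hz
      rw [map_mul, mul_eq_zero] at hz
      rcases hz with hz | hz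
      · exact h6 z hz
      · simp only [map_add, aeval_X, aeval_C] at hz
        rw [eq_neg_of_add_eq_zero_left hz]
        simp

def gr {V I : Type} (c : V → I) : SimpleGraph V where
  Adj u v := u ≠ v ∧ c u = c v
  symm := ⟨fun _ _ h => ⟨h.1.symm, h.2.symm⟩⟩
  loopless := ⟨fun _ h => h.1 rfl⟩

theorem conn_iff {V I : Type} (c : V → I) (S : Finset V) :
    ((gr c).induce (S : Set V)).Connected ↔ S.Nonempty ∧ ∀ u ∈ S, ∀ v ∈ S, c u = c v := by
  constructor
  · intro h
    obtain ⟨⟨x, hx⟩⟩ := h.nonempty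
    refine ⟨⟨x, hx⟩, fun u hu v hv => ?_⟩
    have := h.preconnected ⟨u, hu⟩ ⟨v, hv⟩
    rw [SimpleGraph.reachable_iff_reflTransGen] at this
    have key : ∀ w : (S : Set V), Relation.ReflTransGen ((gr c).induce (S : Set V)).Adj ⟨u, hu⟩ w →
        c u = c w.1 := by
      intro w hw
      induction hw with
      | refl => rfl
      | tail _ hbc ih => exact ih.trans hbc.2
    exact key _ this
  · rintro ⟨⟨x, hx⟩, h⟩
    have : Nonempty (S : Set V) := ⟨⟨x, hx⟩⟩
    refine ⟨fun u v => ?_⟩
    by_cases huv : u = v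
    · rw [huv]
    · exact SimpleGraph.Adj.reachable ⟨fun e => huv (Subtype.ext e), h _ u.2 _ v.2⟩

theorem connPoly_gr {V I : Type} [Fintype V] [Fintype I] [DecidableEq V] [DecidableEq I]
    (c : V → I) : connPoly (gr c) =
      ∑ i, ((1 + X) ^ (univ.filter (fun v => c v = i)).card - 1) := by
  classical
  have h1 : connSets (gr c) = univ.biUnion
      (fun i => (univ.filter (fun v => c v = i)).powerset.erase ∅) := by
    ext S
    simp only [connSets, mem_filter, mem_univ, true_and, conn_iff, mem_biUnion, mem_erase,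
      mem_powerset, ← nonempty_iff_ne_empty]
    constructor
    · rintro ⟨⟨x, hx⟩, h⟩
      exact ⟨c x, ⟨x, hx⟩, fun v hv => mem_filter.2 ⟨mem_univ _, h _ hv _ hx⟩⟩
    · rintro ⟨i, h0, h⟩
      exact ⟨h0, fun u hu v hv => (mem_filter.1 (h hu)).2.trans (mem_filter.1 (h hv)).2.symm⟩
  rw [connPoly, h1, sum_biUnion]
  · refine sum_congr rfl (fun i _ => ?_)
    rw [sum_erase_eq_sub (empty_mem_powerset _), ← prod_const (1 + X : ℂ[X]), prod_one_add]
    simp
  · intro i _ j _ hij
    rw [Function.onFun, disjoint_left]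
    intro S hi hj
    obtain ⟨h0, h⟩ := mem_erase.1 hi
    obtain ⟨x, hx⟩ := nonempty_iff_ne_empty.2 h0
    exact hij ((mem_filter.1 (mem_powerset.1 h hx)).2.symm.trans
      (mem_filter.1 (mem_powerset.1 (mem_erase.1 hj).2 hx)).2)

theorem result (d : ℕ) : ∃ (V : Type) (_ : Fintype V) (G : SimpleGraph V),
    (∃ u v, ¬ G.Reachable u v) ∧ d ≤ (connPoly G).natDegree ∧ AllReal (connPoly G) ∧
      AllReal (nrel G) := by
  classical
  obtain ⟨P, h1, h2, h3, h4, h5, h6⟩ := exists_poly (d + 1)
  let I : Type := Σ j : Fin (d + 3), Fin (P.coeff j.1).toNat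
  let V : Type := Σ i : I, Fin i.1.1
  let c : V → I := fun v => v.1
  have hfib : ∀ i : I, (univ.filter (fun v : V => c v = i)).card = i.1.1 := by
    intro i
    have : univ.filter (fun v : V => c v = i) = univ.map (Function.Embedding.sigmaMk i) := by
      ext ⟨a, b⟩
      simp only [mem_filter, mem_univ, true_and, mem_map, c]
      constructor
      · rintro rfl
        exact ⟨b, rfl⟩
      · rintro ⟨x, hx⟩
        exact (congrArg Sigma.fst hx).symm
    rw [this]
    simp
  have hC : connPoly (gr c) = (P.map (Int.castRingHom ℂ)).comp (X + C 1) := by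
    rw [connPoly_gr]
    simp only [hfib]
    rw [Fintype.sum_sigma]
    simp only [sum_const, card_univ, Fintype.card_fin, nsmul_eq_mul]
    rw [Fin.sum_univ_eq_sum_range
      (fun j => (((P.coeff j).toNat : ℕ) : ℂ[X]) * ((1 + X) ^ j - 1)) (d + 3)]
    have e1 : ∀ j, (((P.coeff j).toNat : ℕ) : ℂ[X]) * ((1 + X) ^ j - 1) =
        (P.coeff j : ℂ[X]) * (1 + X) ^ j - (P.coeff j : ℂ[X]) := by
      intro j
      rcases j with _ | j
      · simp
      · rw [← Int.cast_natCast, Int.toNat_of_nonneg (h4 j)]; ring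
    simp only [e1]
    have e2 : ∑ j ∈ range (d + 3), P.coeff j = 0 := by
      rw [← h3, eval_eq_sum_range, h1]; simp
    rw [sum_sub_distrib, ← Int.cast_sum, e2]
    conv_rhs => rw [P.as_sum_range_C_mul_X_pow, h1, show d + 1 + 1 + 1 = d + 3 from rfl]
    simp [Polynomial.map_sum, add_comm (1 : ℂ[X])]
  have hreal : AllReal (connPoly (gr c)) := by
    intro z hz
    rw [hC, IsRoot, eval_comp] at hz
    have := h6 (z + 1) (by simpa [aeval_def, eval_map] using hz)
    simpa using this
  refine ⟨V, inferInstance, gr c, ?_, ?_, hreal, nrel_real _ hreal⟩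
  · have ha : 0 < (P.coeff 1).toNat := by omega
    have hb : 0 < (P.coeff (d + 2)).toNat := by
      have : P.coeff (d + 2) = 1 := by rw [← h2.leadingCoeff, leadingCoeff, h1]
      rw [this]; simp
    refine ⟨⟨⟨⟨1, by omega⟩, ⟨0, ha⟩⟩, ⟨0, by simp⟩⟩, ⟨⟨⟨d + 2, by omega⟩, ⟨0, hb⟩⟩, ⟨0, by simp⟩⟩, ?_⟩
    intro h
    rw [SimpleGraph.reachable_iff_reflTransGen] at h
    have key : ∀ u w : V, Relation.ReflTransGen (gr c).Adj u w → c u = c w := by
      intro u w hw
      induction hw with
      | refl => rfl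
      | tail _ hbc ih => exact ih.trans hbc.2
    have := congrArg (fun i : I => i.1.1) (key _ _ h)
    simp [c] at this
  · rw [hC, natDegree_comp, natDegree_X_add_C, h2.natDegree_map, h1]
    omega

end Pool.Agent.Results.MP_51a8c5_co.AllDegrees
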